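/-
MP_137e81_co (Komlos-Sos tree conjecture), helper94.
The exact conjecture (all n, all k) for all trees with few internal vertices: with `i` the number of
internal (non-leaf) vertices and `j` the number of internal vertices not adjacent to a leaf, the
conjecture holds for every tree with `k` edges and `4 i + j <= k + 8`.
-/
import Pool.Agent.H.MP_137e81_co.TreeForm

set_option autoImplicit false

namespace Pool.Agent.Results.MP_137e81_co.FewInternal

open Finset KS137

theorem result {β : Type} [Fintype β] (T : SimpleGraph β) (hT : T.IsTree) (k : ℕ)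
    (hk : Fintype.card β = k + 1)
    (h : 4 * {v : β | 2 ≤ (T.neighborSet v).ncard}.ncard +
      {v : β | 2 ≤ (T.neighborSet v).ncard ∧ ∀ u, T.Adj v u → 2 ≤ (T.neighborSet u).ncard}.ncard
        ≤ k + 8) : LKS k T := by
  classical
  have hdeg : ∀ v : β, (T.neighborSet v).ncard = T.degree v := by
    intro v
    rw [Set.ncard_eq_toFinset_card', SimpleGraph.degree]
    rfl
  simp only [hdeg] at h
  rcases Nat.lt_or_ge k 2 with hk2 | hk2
  · -- at most two vertices
    intro V _ _ G hG
    have hex : ∃ g : β → V, Function.Injective g ∧ ∀ u w, u ≠ w → G.Adj (g u) (g w) := by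
      rcases Nat.lt_or_ge k 1 with hk0 | hk1
      · have : Subsingleton β := Fintype.card_le_one_iff_subsingleton.1 (by omega)
        exact ⟨fun _ => Classical.arbitrary V, fun a b _ => Subsingleton.elim a b,
          fun u w huw => (huw (Subsingleton.elim u w)).elim⟩
      · have hk1' : k = 1 := by omega
        subst hk1'
        -- an edge of `G`
        obtain ⟨x, hx⟩ : {v : V | 1 ≤ (G.neighborSet v).ncard}.Nonempty := by
          rw [← Set.ncard_pos]
          have : 0 < Fintype.card V := Fintype.card_pos
          omega
        have hx' : 0 < (G.neighborSet x).ncard := hx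
        obtain ⟨y, hy⟩ := (Set.ncard_pos).1 hx'
        have hxy : G.Adj x y := hy
        let e : β ≃ Fin 2 := Fintype.equivFinOfCardEq hk
        have hfin : ∀ a b : Fin 2, a ≠ b → (a = 0 ∧ b = 1) ∨ (a = 1 ∧ b = 0) := by decide
        have hadj : ∀ u w, u ≠ w →
            G.Adj (if e u = 0 then x else y) (if e w = 0 then x else y) := by
          intro u w huw
          rcases hfin (e u) (e w) (fun he => huw (e.injective he)) with ⟨h1, h2⟩ | ⟨h1, h2⟩
          · rw [h1, h2]; simpa using hxy
          · rw [h1, h2]; simpa using hxy.symm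
        refine ⟨fun u => if e u = 0 then x else y, ?_, hadj⟩
        intro u w huw
        by_contra hne
        exact (hadj u w hne).ne huw
    obtain ⟨g, hg, hg2⟩ := hex
    exact ⟨⟨⟨g, fun {u w} huw => hg2 u w huw.ne⟩, hg⟩⟩
  · -- at least three vertices
    have h3 : 3 ≤ Fintype.card β := by omega
    obtain ⟨hcard, hcont⟩ := tree_form hT h3
    have e1 : {v : β | 2 ≤ T.degree v}.ncard = Fintype.card {v // 2 ≤ T.degree v} := by
      rw [Set.ncard_eq_toFinset_card', Fintype.card_subtype]
      congr 1
      ext v
      simp
    have e2 : {v : β | 2 ≤ T.degree v ∧ ∀ u, T.Adj v u → 2 ≤ T.degree u}.ncard =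
        (Finset.filter (fun v : {v // 2 ≤ T.degree v} => nleaf T (v : β) = 0) Finset.univ).card := by
      rw [Set.ncard_eq_toFinset_card']
      symm
      refine Finset.card_bij (fun v _ => (v : β)) ?_ ?_ ?_
      · intro v hv
        rw [Finset.mem_filter] at hv
        rw [Set.mem_toFinset]
        refine ⟨v.2, fun u hu => ?_⟩
        by_contra hlt
        have hpos : 1 ≤ T.degree u := by
          rw [← SimpleGraph.card_neighborFinset_eq_degree]
          exact Finset.card_pos.2 ⟨v, by simpa using hu.symm⟩
        have h0 : IsEmpty {u // T.Adj v u ∧ T.degree u = 1} := Fintype.card_eq_zero_iff.1 hv.2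
        exact h0.false ⟨u, hu, by omega⟩
      · intro a _ b _ hab
        exact Subtype.ext hab
      · intro v hv
        rw [Set.mem_toFinset] at hv
        refine ⟨⟨v, hv.1⟩, ?_, rfl⟩
        rw [Finset.mem_filter]
        refine ⟨Finset.mem_univ _, Fintype.card_eq_zero_iff.2 ⟨?_⟩⟩
        rintro ⟨u, hu1, hu2⟩
        have := hv.2 u hu1
        omega
    have hH := inner_isTree hT h3
    have hmain : LKS k (leafed (T.induce {v | 2 ≤ T.degree v}) fun v => nleaf T v) := by
      refine few (T.induce {v | 2 ≤ T.degree v}) hH (fun v => nleaf T v) k (by omega) ?_ ?_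
      · rw [← hk]
        exact hcard
      · rw [e1, e2] at h
        exact h
    intro V _ _ G hG
    exact hcont.trans (hmain V G hG)

end Pool.Agent.Results.MP_137e81_co.FewInternal
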