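/-
MP_137e81_co (Komlos-Sos tree conjecture), helper62 and helper94.
The exact conjecture (all n, all k) for all trees with enough leaves at their internal vertices and with
an internal vertex `h` such that at least half of the other internal vertices are adjacent to `h` and to
no other internal vertex.
-/
import Pool.Agent.H.MP_137e81_co.Hub
import Pool.Agent.H.MP_137e81_co.TreeForm

set_option autoImplicit false

namespace Pool.Agent.Results.MP_137e81_co.HubTrees

open Finset KS137

theorem result {β : Type} [Fintype β] (T : SimpleGraph β) (hT : T.IsTree) (k : ℕ)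
    (hk : Fintype.card β = k + 1) (h : β) (hh : 2 ≤ (T.neighborSet h).ncard)
    (hhub : {v : β | 2 ≤ (T.neighborSet v).ncard}.ncard ≤
      2 * {u : β | T.Adj h u ∧ 2 ≤ (T.neighborSet u).ncard ∧
        ∀ w, T.Adj u w → 2 ≤ (T.neighborSet w).ncard → w = h}.ncard + 1)
    (hcover : ∀ J : Finset β, (∀ v ∈ J, 2 ≤ (T.neighborSet v).ncard) →
      (∀ u v, T.Adj u v → 2 ≤ (T.neighborSet u).ncard → 2 ≤ (T.neighborSet v).ncard →
        u ∈ J ∨ v ∈ J) →
      J.card ≤ {u : β | (T.neighborSet u).ncard = 1 ∧ ∃ v ∈ J, T.Adj v u}.ncard + 1) :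
    LKS k T := by
  classical
  have hdeg : ∀ v : β, (T.neighborSet v).ncard = T.degree v := by
    intro v
    rw [Set.ncard_eq_toFinset_card', SimpleGraph.degree]
    rfl
  simp only [hdeg] at hh hhub hcover
  have h3 : 3 ≤ Fintype.card β := by
    have h4 : T.degree h < Fintype.card β := T.degree_lt_card_verts h
    omega
  obtain ⟨hcard, hcont⟩ := tree_form hT h3
  have hH := inner_isTree hT h3
  have hne : Nonempty {v // 2 ≤ T.degree v} := ⟨⟨h, hh⟩⟩
  have hne' : Nonempty ({v | 2 ≤ T.degree v} : Set β) := hne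
  have e1 : {v : β | 2 ≤ T.degree v}.ncard = Fintype.card {v // 2 ≤ T.degree v} := by
    rw [Set.ncard_eq_toFinset_card', Fintype.card_subtype]
    congr 1
    ext v
    simp
  have e2 : {u : β | T.Adj h u ∧ 2 ≤ T.degree u ∧ ∀ w, T.Adj u w → 2 ≤ T.degree w → w = h}.ncard =
      ((univ : Finset {v // 2 ≤ T.degree v}).filter fun u =>
        (T.induce {v | 2 ≤ T.degree v}).Adj ⟨h, hh⟩ u ∧
          (T.induce {v | 2 ≤ T.degree v}).degree u = 1).card := by
    rw [Set.ncard_eq_toFinset_card']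
    symm
    refine Finset.card_bij (fun v _ => (v : β)) ?_ ?_ ?_
    · rintro ⟨u, hu⟩ hmem
      rw [Finset.mem_filter] at hmem
      obtain ⟨-, hadj, hd1⟩ := hmem
      rw [Set.mem_toFinset]
      refine ⟨hadj, hu, fun w hw hwd => ?_⟩
      obtain ⟨y, -, hy⟩ := ((T.induce {v | 2 ≤ T.degree v}).degree_eq_one_iff_existsUnique_adj).1 hd1
      have h5 := hy ⟨w, hwd⟩ hw
      have h6 := hy ⟨h, hh⟩ (SimpleGraph.Adj.symm hadj)
      exact congrArg Subtype.val (h5.trans h6.symm)
    · intro a _ b _ hab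
      exact Subtype.ext hab
    · intro u hu
      rw [Set.mem_toFinset] at hu
      obtain ⟨hu1, hu2, hu3⟩ := hu
      refine ⟨⟨u, hu2⟩, ?_, rfl⟩
      rw [Finset.mem_filter]
      refine ⟨Finset.mem_univ _, hu1, ?_⟩
      rw [(T.induce {v | 2 ≤ T.degree v}).degree_eq_one_iff_existsUnique_adj]
      refine ⟨⟨h, hh⟩, hu1.symm, ?_⟩
      rintro ⟨w, hw⟩ hadj
      exact Subtype.ext (hu3 w hadj hw)
  have hES := es_hub (T.induce {v | 2 ≤ T.degree v}) hH ⟨h, hh⟩ (by
    rw [e1, e2] at hhub
    exact hhub)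
  have hmain := transfer (T.induce {v | 2 ≤ T.degree v}) (fun v => nleaf T v) hES (by
    intro J hJ
    have h5 := hcover (J.map (Function.Embedding.subtype _)) (by
      intro v hv
      obtain ⟨x, -, rfl⟩ := Finset.mem_map.1 hv
      exact x.2) (by
      intro u v huv hu hv
      by_contra hcon
      rw [not_or] at hcon
      refine hJ ⟨u, hu⟩ (fun h6 => hcon.1 ?_) ⟨v, hv⟩ (fun h6 => hcon.2 ?_) huv
      · exact Finset.mem_map.2 ⟨_, h6, rfl⟩
      · exact Finset.mem_map.2 ⟨_, h6, rfl⟩)
    rw [Finset.card_map] at h5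
    refine h5.trans (Nat.add_le_add_right ?_ 1)
    have h6 : {u : β | T.degree u = 1 ∧ ∃ v ∈ J.map (Function.Embedding.subtype _), T.Adj v u} ⊆
        ((J.biUnion fun v => univ.filter fun u => T.Adj (v : β) u ∧ T.degree u = 1 : Finset β) :
          Set β) := by
      rintro u ⟨hu1, v, hv, huv⟩
      obtain ⟨x, hx, rfl⟩ := Finset.mem_map.1 hv
      rw [Finset.mem_coe, Finset.mem_biUnion]
      exact ⟨x, hx, Finset.mem_filter.2 ⟨Finset.mem_univ _, huv, hu1⟩⟩
    refine (Set.ncard_le_ncard h6 (Finset.finite_toSet _)).trans ?_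
    rw [Set.ncard_coe_finset]
    refine Finset.card_biUnion_le.trans (le_of_eq (Finset.sum_congr rfl fun v _ => ?_))
    unfold nleaf
    rw [Fintype.card_subtype])
  have hk' : Fintype.card {v // 2 ≤ T.degree v} - 1 +
      ∑ v : {v // 2 ≤ T.degree v}, nleaf T (v : β) = k := by
    have : 0 < Fintype.card {v // 2 ≤ T.degree v} := Fintype.card_pos
    omega
  intro V _ _ G hG
  exact hcont.trans (hmain V G (by
    rw [← hk'] at hG
    exact hG))

end Pool.Agent.Results.MP_137e81_co.HubTrees
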