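/-
MP_137e81_co (Komlos-Sos tree conjecture), helper94.
The exact conjecture (all n, all k) for every lobster with enough leaves, in particular for every
lobster whose internal vertices, with at most one exception, are all adjacent to leaves.
-/
import Pool.Agent.H.MP_137e81_co.PerlesES

set_option autoImplicit false

namespace Pool.Agent.Results.MP_137e81_co.Lobsters

open Finset KS137

/-- The caterpillar with spine `0, 1, ..., s - 1` (a path) and `mu j` legs attached at the spine
vertex `j`. -/
def caterpillar (s : ℕ) (mu : Fin s → ℕ) : SimpleGraph (Fin s ⊕ (Σ j : Fin s, Fin (mu j))) :=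
  leafed (SimpleGraph.pathGraph s) mu

theorem result (s : ℕ) (hs : 1 ≤ s) (mu : Fin s → ℕ)
    (lam : Fin s ⊕ (Σ j : Fin s, Fin (mu j)) → ℕ)
    (hcover : ∀ J : Finset (Fin s ⊕ (Σ j : Fin s, Fin (mu j))),
      (∀ u ∉ J, ∀ v ∉ J, ¬ (caterpillar s mu).Adj u v) → J.card ≤ ∑ v ∈ J, lam v + 1) :
    LKS (s - 1 + ∑ j, mu j + ∑ v, lam v) (leafed (caterpillar s mu) lam) := by
  have : Nonempty (Fin s ⊕ (Σ j : Fin s, Fin (mu j))) := ⟨Sum.inl ⟨0, hs⟩⟩
  have h := transfer (caterpillar s mu) lam (es_caterpillar s hs mu) hcover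
  have hc : Fintype.card (Fin s ⊕ (Σ j : Fin s, Fin (mu j))) - 1 = s - 1 + ∑ j, mu j := by
    simp only [Fintype.card_sum, Fintype.card_fin, Fintype.card_sigma]
    omega
  rw [hc] at h
  exact h

end Pool.Agent.Results.MP_137e81_co.Lobsters
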