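/-
MP_137e81_co (Komlos-Sos tree conjecture), helper95.
The conjecture for all nowhere-dense hosts, with one third of the vertices in place of one half; the
constant 1/3 is best possible.
-/
import Pool.Agent.H.MP_137e81_co.ls.Main
import Pool.Agent.H.MP_137e81_co.ls.Main2

set_option autoImplicit false

namespace Pool.Agent.Results.MP_137e81_co.OneThird

open KS137

theorem result :
    (∃ γ : ℝ, 0 < γ ∧
      ∀ (k : ℕ) (β : Type) [Fintype β] (T : SimpleGraph β), T.IsTree → Fintype.card β = k + 1 →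
      ∀ (V : Type) [Fintype V] [Nonempty V] (G : SimpleGraph V), NoDenseSpot G (γ * k) γ →
        Fintype.card V ≤ 3 * {v : V | k ≤ (G.neighborSet v).ncard}.ncard → T.IsContained G) ∧
    (∀ c : ℝ, c < 1 / 3 → ∀ γ : ℝ, 0 < γ →
      ∃ (k : ℕ) (β : Type) (_ : Fintype β) (T : SimpleGraph β) (V : Type) (_ : Fintype V)
        (G : SimpleGraph V), T.IsTree ∧ Fintype.card β = k + 1 ∧ Nonempty V ∧
        NoDenseSpot G (γ * k) γ ∧
        c * Fintype.card V ≤ {v : V | k ≤ (G.neighborSet v).ncard}.ncard ∧ ¬ T.IsContained G) := by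
  constructor
  · obtain ⟨γ, hγ, h⟩ := upper2_real
    refine ⟨γ, hγ, fun k β _ T hT hk V _ _ G hG hV => ?_⟩
    exact h k T hT hk G hG hV
  · intro c hc γ hγ
    obtain ⟨k, β, hβ, T, V, hV, G, h1, h2, h3, h4, h5, h6⟩ := lower_real c γ hc hγ
    exact ⟨k, β, hβ, T, V, hV, G, h2, h3, h1, (noDenseSpot_iff G _ _).2 h4, h5, h6⟩

end Pool.Agent.Results.MP_137e81_co.OneThird
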